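import Pool.Agent.Q271.RG.Gam

/-!
# Assembly: the zero-one law for products of Gamma values
-/

open scoped Classical
open Finset

set_option linter.unusedSectionVars false
set_option linter.unusedVariables false

namespace Pool.Agent.Q271.RG

variable {n : ℕ}

/-- the fractions with denominator `n + 1` in the open unit interval -/
noncomputable def pt (n : ℕ) (j : Fin n) : ℚ := ((j : ℕ) + 1) / ((n : ℚ) + 1)

lemma pt_pos (j : Fin n) : 0 < pt n j := by unfold pt; positivity

lemma pt_lt (j : Fin n) : pt n j < 1 := by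
  unfold pt
  rw [div_lt_one (by positivity)]
  have : ((j : ℕ) : ℚ) < n := by exact_mod_cast j.2
  linarith

lemma pt_rev (j : Fin n) : pt n j.rev = 1 - pt n j := by
  unfold pt
  have h1 : ((j.rev : ℕ) : ℚ) = n - (j + 1) := by
    rw [Fin.val_rev]
    rw [Nat.cast_sub (by have := j.2; omega)]
    push_cast
    ring
  have h2 : (n : ℚ) + 1 ≠ 0 := by positivity
  rw [h1]
  field_simp
  ring

lemma pt_not_int (j : Fin n) (m : ℕ) (hm : 1 ≤ m ∧ m < n + 1 ∧ m.Coprime (n + 1)) (z : ℤ) :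
    (m : ℚ) * pt n j ≠ z := by
  intro h
  unfold pt at h
  have h2 : (n : ℚ) + 1 ≠ 0 := by positivity
  rw [mul_div_assoc', div_eq_iff h2] at h
  have h3 : ((m : ℤ)) * ((j : ℕ) + 1 : ℤ) = z * ((n : ℤ) + 1) := by exact_mod_cast h
  have h4 : ((n + 1 : ℕ) : ℤ) ∣ (m : ℤ) * (((j : ℕ) + 1 : ℕ) : ℤ) := by
    refine ⟨z, ?_⟩
    push_cast
    rw [h3]; ring
  rw [← Nat.cast_mul, Int.natCast_dvd_natCast] at h4
  have h5 := (Nat.Coprime.symm hm.2.2).dvd_of_dvd_mul_left h4
  have h6 := Nat.le_of_dvd (Nat.succ_pos _) h5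
  have := j.2
  omega

/-- the pair of the fractional parts and the class -/
noncomputable def psi (n : ℕ) (x : ℚ) : (ℕ → ℚ) × WW := (FF (n + 1) x, gc (x : ℝ))

/-- the letters -/
noncomputable def ph (n : ℕ) (j : Fin n) : (ℕ → ℚ) × WW := psi n (pt n j)

lemma ph_rev (j : Fin n) : ph n j.rev = - ph n j := by
  unfold ph psi
  rw [pt_rev]
  refine Prod.ext ?_ ?_
  · rw [Prod.fst_neg]
    exact FF_reflect (fun m hm z => pt_not_int j m hm z)
  · rw [Prod.snd_neg]
    exact gc_reflect (pt_pos j) (pt_lt j)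

/-- the value of a letter -/
noncomputable def val (n : ℕ) : Option (Fin n) → ℚ
  | some j => pt n j
  | none => 1

lemma phi'_eq (o : Option (Fin n)) : phi' (ph n) (psi n 1) o = psi n (val n o) := by
  cases o <;> rfl

lemma val_adm (o : Option (Fin n)) : Adm (val n o) := by
  intro m h
  have h1 : 0 < val n o := by
    cases o
    · exact one_pos
    · exact pt_pos _
  rw [h] at h1
  have : (0 : ℚ) ≤ m := Nat.cast_nonneg _
  linarith

lemma sum_phi' {r : ℕ} (t : Fin r → Option (Fin n)) :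
    ∑ i, phi' (ph n) (psi n 1) (t i) = (∑ i, FF (n + 1) (val n (t i)), ∑ i, gc (val n (t i) : ℝ)) := by
  simp only [phi'_eq]
  refine Prod.ext ?_ ?_
  · rw [Prod.fst_sum]; rfl
  · rw [Prod.snd_sum]; rfl

lemma star_aux (hn : 0 < n) (o : Option (Fin n)) :
    FF (n + 1) (val n o) 1 + FF (n + 1) (val n o) n = if o = none then -1 else 0 := by
  have h1 : 1 ≤ 1 ∧ 1 < n + 1 ∧ Nat.Coprime 1 (n + 1) := ⟨le_rfl, by omega, Nat.coprime_one_left _⟩
  have h2 : 1 ≤ n ∧ n < n + 1 ∧ Nat.Coprime n (n + 1) := ⟨hn, by omega, by simp⟩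
  unfold FF
  rw [if_pos h1, if_pos h2]
  cases o with
  | none =>
    simp only [val, if_true]
    have h3 : Int.fract (((1 : ℕ) : ℚ) * 1) = 0 := by
      rw [mul_one]; exact Int.fract_natCast 1
    have h4 : Int.fract ((n : ℚ) * 1) = 0 := by
      rw [mul_one]; exact Int.fract_natCast n
    rw [h3, h4]; norm_num
  | some j =>
    simp only [val, reduceCtorEq, if_false]
    have h3 : (n : ℚ) * pt n j = -(((1 : ℕ) : ℚ) * pt n j) + (((j : ℕ) + 1 : ℤ) : ℚ) := by
      unfold pt
      have : (n : ℚ) + 1 ≠ 0 := by positivity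
      field_simp
      push_cast
      ring
    have h4 : Int.fract (((1 : ℕ) : ℚ) * pt n j) ≠ 0 := by
      intro h
      rw [Int.fract_eq_iff] at h
      obtain ⟨-, -, z, hz⟩ := h
      exact pt_not_int j 1 h1 z (by linarith)
    rw [h3, Int.fract_add_intCast, Int.fract_neg h4]
    ring

lemma star (hn : 0 < n) (r : ℕ) (t : Fin r → Option (Fin n))
    (h : (∑ i, phi' (ph n) (psi n 1) (t i)).1 = 0) (i : Fin r) : t i ≠ none := by
  rw [sum_phi'] at h
  have h1 := congrFun h 1
  have h2 := congrFun h n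
  simp only [Finset.sum_apply, Pi.zero_apply] at h1 h2
  have h3 : ∑ i, (if t i = none then (-1 : ℚ) else 0) = 0 := by
    calc ∑ i, (if t i = none then (-1 : ℚ) else 0)
        = ∑ i, (FF (n + 1) (val n (t i)) 1 + FF (n + 1) (val n (t i)) n) :=
          Finset.sum_congr rfl fun i _ => (star_aux hn (t i)).symm
      _ = ∑ i, FF (n + 1) (val n (t i)) 1 + ∑ i, FF (n + 1) (val n (t i)) n :=
          Finset.sum_add_distrib
      _ = 0 := by rw [h1, h2, add_zero]
  intro hi
  have h4 : ∀ j ∈ (univ : Finset (Fin r)), (if t j = none then (-1 : ℚ) else 0) ≤ 0 := by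
    intro j _
    split_ifs <;> norm_num
  have h5 := (Finset.sum_eq_zero_iff_of_nonpos h4).1 h3 i (mem_univ i)
  rw [if_pos hi] at h5
  norm_num at h5

/-- Words are words without the extra letter and copies of it. -/
lemma words {S W : Type} [Fintype S] [AddCommGroup W] (φ : S → (ℕ → ℚ) × W) (e : (ℕ → ℚ) × W) {k : ℕ}
    (t : Fin k → Option S) : ∃ (l : ℕ) (b : Fin l → S) (k₀ : ℕ),
      ∑ i, phi' φ e (t i) = ∑ j, φ (b j) + k₀ • e := by
  induction k with
  | zero => exact ⟨0, fun i => i.elim0, 0, by simp⟩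
  | succ k ih =>
    obtain ⟨l, b, k₀, h⟩ := ih (fun i => t i.castSucc)
    rw [Fin.sum_univ_castSucc, h]
    cases ht : t (Fin.last k) with
    | none =>
      refine ⟨l, b, k₀ + 1, ?_⟩
      rw [phi'_none, add_smul, one_smul, add_assoc]
    | some s =>
      refine ⟨l + 1, Fin.snoc b s, k₀, ?_⟩
      rw [phi'_some, Fin.sum_univ_castSucc]
      simp only [Fin.snoc_castSucc, Fin.snoc_last]
      abel

/-- Every admissible rational number with the given denominator has the value of a letter. -/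
lemma letter {x : ℚ} (hx : Adm x) (hD : ∃ z : ℤ, ((n + 1 : ℕ) : ℚ) * x = z) :
    ∃ o : Option (Fin n), phi' (ph n) (psi n 1) o = psi n x := by
  obtain ⟨z, hz⟩ := hD
  have hD0 : (0 : ℚ) < ((n + 1 : ℕ) : ℚ) := by positivity
  by_cases hint : ∃ k : ℤ, x = k
  · obtain ⟨k, rfl⟩ := hint
    have hk : 0 < k := by
      by_contra hneg
      push Not at hneg
      obtain ⟨m, hm⟩ := Int.exists_eq_neg_ofNat hneg
      apply hx m
      rw [hm]; push_cast; rfl
    obtain ⟨m, rfl⟩ := Int.eq_ofNat_of_zero_le hk.le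
    have hm : 0 < m := by exact_mod_cast hk
    refine ⟨none, ?_⟩
    rw [phi'_none]
    refine Prod.ext ?_ ?_
    · show FF (n + 1) 1 = FF (n + 1) (((m : ℕ) : ℤ) : ℚ)
      have h1 : (((m : ℕ) : ℤ) : ℚ) = 1 + ((m : ℤ) - 1 : ℤ) := by push_cast; ring
      rw [h1, FF_add_int]
    · show gc ((1 : ℚ) : ℝ) = gc ((((m : ℕ) : ℤ) : ℚ) : ℝ)
      rw [← gc_nat hm]
      push_cast
      rfl
  · push Not at hint
    set y := Int.fract x with hy
    have hxy : x = y + (⌊x⌋ : ℚ) := (Int.fract_add_floor x).symm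
    have hyint : ∀ w : ℤ, y ≠ w := by
      intro w h
      apply hint (w + ⌊x⌋)
      push_cast
      linarith [hxy]
    have hy0 : 0 < y := lt_of_le_of_ne (Int.fract_nonneg x) (fun h => hyint 0 (by rw [← h]; simp))
    have hy1 : y < 1 := Int.fract_lt_one x
    set w : ℤ := z - (n + 1 : ℕ) * ⌊x⌋ with hw
    have hwy : ((n + 1 : ℕ) : ℚ) * y = w := by
      have : y = x - (⌊x⌋ : ℚ) := rfl
      rw [this, mul_sub, hz, hw]
      push_cast; ring
    have hw0 : 0 < w := by
      have : (0 : ℚ) < w := by rw [← hwy]; positivity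
      exact_mod_cast this
    have hw1 : w < ((n + 1 : ℕ) : ℤ) := by
      have : (w : ℚ) < ((n + 1 : ℕ) : ℚ) := by
        rw [← hwy]
        calc ((n + 1 : ℕ) : ℚ) * y < ((n + 1 : ℕ) : ℚ) * 1 := mul_lt_mul_of_pos_left hy1 hD0
          _ = _ := mul_one _
      exact_mod_cast this
    obtain ⟨m, hm⟩ : ∃ m : ℕ, w = m + 1 := ⟨(w - 1).toNat, by omega⟩
    have hmn : m < n := by
      rw [hm] at hw1; push_cast at hw1; omega
    have hpt : pt n ⟨m, hmn⟩ = y := by
      unfold pt
      rw [div_eq_iff (by positivity)]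
      have h2 := hwy
      rw [hm] at h2
      push_cast at h2 ⊢
      linarith
    refine ⟨some ⟨m, hmn⟩, ?_⟩
    rw [phi'_some]
    unfold ph
    rw [hpt]
    refine Prod.ext ?_ ?_
    · show FF (n + 1) y = FF (n + 1) x
      rw [hxy, FF_add_int]
    · show gc (y : ℝ) = gc (x : ℝ)
      conv_rhs => rw [hxy]
      exact (gc_add_int hyint _).symm

/-- the fractions in `(0, 1]` -/
noncomputable def xx (D : ℕ) (t : Fin D) : ℚ := ((t : ℕ) + 1) / (D : ℚ)

lemma xx_eq (t : Fin (n + 1)) : xx (n + 1) t = val n (finSuccEquivLast t) := by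
  refine Fin.lastCases ?_ (fun j => ?_) t
  · rw [finSuccEquivLast_last]
    unfold xx val
    rw [Fin.val_last]
    push_cast
    exact div_self (by positivity)
  · rw [finSuccEquivLast_castSucc]
    unfold xx val pt
    push_cast
    rfl

/-- **The law.** -/
theorem main_law {D : ℕ} (hD : 2 ≤ D) {k : ℕ} (b : Fin k → ℚ)
    (hb : ∀ i, Adm (b i) ∧ ∃ z : ℤ, (D : ℚ) * b i = z) (h1 : AlgMult b) (h2 : ¬ Ident D b) :
    ∃ C : ℝ, 0 ≤ C ∧ ∀ r : ℕ, 2 ≤ r →
      (Nat.card {t : Fin r → Fin D // AlgMult (fun i => xx D (t i)) ∧ Ident D (fun i => xx D (t i))} : ℝ) ≤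
        C * Real.sqrt (Real.log r / r) *
          Nat.card {t : Fin r → Fin D // AlgMult (fun i => xx D (t i))} := by
  obtain ⟨n, rfl⟩ : ∃ n, D = n + 1 := ⟨D - 1, by omega⟩
  have hn : 0 < n := by omega
  have : Nonempty (Fin n) := ⟨⟨0, hn⟩⟩
  choose o ho using fun i => letter (n := n) (hb i).1 (hb i).2
  obtain ⟨l, c, k₀, hw⟩ := words (ph n) (psi n 1) o
  have hsum : ∑ i, phi' (ph n) (psi n 1) (o i) = (∑ i, FF (n + 1) (b i), ∑ i, gc (b i : ℝ)) := by
    simp only [ho]
    refine Prod.ext ?_ ?_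
    · rw [Prod.fst_sum]; rfl
    · rw [Prod.snd_sum]; rfl
  rw [hw] at hsum
  obtain ⟨C, hC, h⟩ := word_law (φ := ph n) (e := psi n 1) (neg := Fin.rev) Fin.rev_rev ph_rev
    (star hn) c k₀
    (by rw [hsum]; exact (algMult_iff fun i => (hb i).1).1 h1)
    (by
      rw [hsum]
      intro h3
      exact h2 ((ident_iff _ _).2 h3))
  refine ⟨C, hC, fun r hr => ?_⟩
  have hE : ∀ t : Fin r → Fin (n + 1), (AlgMult (fun i => xx (n + 1) (t i)) ↔
      (∑ i, phi' (ph n) (psi n 1) (finSuccEquivLast (t i))).2 = 0) := by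
    intro t
    rw [sum_phi', algMult_iff (fun i => by rw [xx_eq]; exact val_adm _)]
    simp only [xx_eq]
  have hI : ∀ t : Fin r → Fin (n + 1), (Ident (n + 1) (fun i => xx (n + 1) (t i)) ↔
      (∑ i, phi' (ph n) (psi n 1) (finSuccEquivLast (t i))).1 = 0) := by
    intro t
    rw [sum_phi', ident_iff]
    simp only [xx_eq]
  have hAA : Nat.card {t : Fin r → Fin (n + 1) // AlgMult (fun i => xx (n + 1) (t i))} =
      AA (ph n) (psi n 1) r := by
    unfold AA
    refine Nat.card_congr (Equiv.subtypeEquiv (Equiv.arrowCongr (Equiv.refl _) finSuccEquivLast)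
      fun t => ?_)
    rw [hE]
    rfl
  have hII : Nat.card {t : Fin r → Fin (n + 1) // AlgMult (fun i => xx (n + 1) (t i)) ∧
      Ident (n + 1) (fun i => xx (n + 1) (t i))} = II (ph n) (psi n 1) r := by
    unfold II
    refine Nat.card_congr (Equiv.subtypeEquiv (Equiv.arrowCongr (Equiv.refl _) finSuccEquivLast)
      fun t => ?_)
    rw [hE, hI, and_comm]
    rfl
  rw [hAA, hII]
  exact h r hr

end Pool.Agent.Q271.RG
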