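import Pool.Agent.Q271.RG.Law

/-!
# Classes of Gamma values modulo algebraic numbers
-/

open scoped Classical
open Finset

set_option linter.unusedSectionVars false
set_option linter.unusedVariables false

namespace Pool.Agent.Q271.RG

/-- the non-zero algebraic real numbers -/
def algSub : Subgroup ℝˣ where
  carrier := {u | IsAlgebraic ℚ (u : ℝ)}
  mul_mem' := by
    intro a b ha hb
    have ha' : IsAlgebraic ℚ (a : ℝ) := ha
    have hb' : IsAlgebraic ℚ (b : ℝ) := hb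
    show IsAlgebraic ℚ ((a * b : ℝˣ) : ℝ)
    rw [Units.val_mul]
    exact ha'.mul hb'
  one_mem' := by
    show IsAlgebraic ℚ ((1 : ℝˣ) : ℝ)
    rw [Units.val_one]
    exact isAlgebraic_one
  inv_mem' := by
    intro a ha
    have ha' : IsAlgebraic ℚ (a : ℝ) := ha
    show IsAlgebraic ℚ ((a⁻¹ : ℝˣ) : ℝ)
    rw [Units.val_inv_eq_inv_val]
    exact ha'.inv

/-- real numbers modulo algebraic numbers, written additively -/
def WW : Type := Additive (ℝˣ ⧸ algSub)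

noncomputable instance : AddCommGroup WW := inferInstanceAs (AddCommGroup (Additive (ℝˣ ⧸ algSub)))

/-- the class of a unit -/
noncomputable def ucls (u : ℝˣ) : WW := Additive.ofMul (QuotientGroup.mk u : ℝˣ ⧸ algSub)

lemma ucls_mul (u v : ℝˣ) : ucls (u * v) = ucls u + ucls v := rfl

lemma ucls_eq_zero (u : ℝˣ) : ucls u = 0 ↔ IsAlgebraic ℚ (u : ℝ) :=
  QuotientGroup.eq_one_iff (N := algSub) u

/-- the class of a non-zero real number -/
noncomputable def cls (y : ℝ) : WW :=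
  if h : y ≠ 0 then ucls (Units.mk0 y h) else 0

lemma cls_eq {y : ℝ} (h : y ≠ 0) : cls y = ucls (Units.mk0 y h) := by
  unfold cls
  rw [dif_pos h]

lemma cls_mul {y z : ℝ} (hy : y ≠ 0) (hz : z ≠ 0) : cls (y * z) = cls y + cls z := by
  rw [cls_eq hy, cls_eq hz, cls_eq (mul_ne_zero hy hz), Units.mk0_mul, ucls_mul]

lemma cls_eq_zero {y : ℝ} (hy : y ≠ 0) : cls y = 0 ↔ IsAlgebraic ℚ y := by
  rw [cls_eq hy, ucls_eq_zero]
  rfl

lemma cls_prod {ι : Type} (s : Finset ι) (f : ι → ℝ) (h : ∀ i ∈ s, f i ≠ 0) :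
    cls (∏ i ∈ s, f i) = ∑ i ∈ s, cls (f i) := by
  induction s using Finset.induction_on with
  | empty =>
    rw [Finset.prod_empty, Finset.sum_empty, cls_eq_zero one_ne_zero]
    exact isAlgebraic_one
  | insert i s hi ih =>
    rw [Finset.prod_insert hi, Finset.sum_insert hi, cls_mul (h i (Finset.mem_insert_self _ _))
      (Finset.prod_ne_zero_iff.2 fun j hj => h j (Finset.mem_insert_of_mem hj)),
      ih fun j hj => h j (Finset.mem_insert_of_mem hj)]

/-- the class of the Gamma value, divided by the root of `π` -/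
noncomputable def gc (x : ℝ) : WW := cls (Real.Gamma x / Real.sqrt Real.pi)

lemma sqrt_pi_ne : Real.sqrt Real.pi ≠ 0 := (Real.sqrt_pos.2 Real.pi_pos).ne'

/-- the product of Gamma values is an algebraic multiple of the power of `π` -/
def AlgMult {r : ℕ} (a : Fin r → ℚ) : Prop :=
  ∃ α : ℝ, IsAlgebraic ℚ α ∧ ∏ i, Real.Gamma (a i : ℝ) = α * Real.pi ^ ((r : ℝ) / 2)

/-- admissible arguments -/
def Adm (x : ℚ) : Prop := ∀ n : ℕ, x ≠ -(n : ℚ)

lemma gamma_ne {x : ℚ} (hx : Adm x) : Real.Gamma (x : ℝ) ≠ 0 := by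
  apply Real.Gamma_ne_zero
  intro m h
  apply hx m
  exact_mod_cast h

lemma algMult_iff {r : ℕ} {a : Fin r → ℚ} (ha : ∀ i, Adm (a i)) :
    AlgMult a ↔ ∑ i, gc (a i) = 0 := by
  have hpi : Real.pi ^ ((r : ℝ) / 2) = Real.sqrt Real.pi ^ r := by
    rw [Real.sqrt_eq_rpow, ← Real.rpow_natCast, ← Real.rpow_mul Real.pi_pos.le]
    congr 1
    ring
  have hne : ∀ i ∈ (univ : Finset (Fin r)), Real.Gamma (a i : ℝ) / Real.sqrt Real.pi ≠ 0 :=
    fun i _ => div_ne_zero (gamma_ne (ha i)) sqrt_pi_ne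
  have h1 : ∑ i, gc (a i) = cls (∏ i, Real.Gamma (a i : ℝ) / Real.sqrt Real.pi) :=
    (cls_prod univ _ hne).symm
  have h2 : ∏ i, Real.Gamma (a i : ℝ) / Real.sqrt Real.pi =
      (∏ i, Real.Gamma (a i : ℝ)) / Real.pi ^ ((r : ℝ) / 2) := by
    rw [Finset.prod_div_distrib, Finset.prod_const, Finset.card_univ, Fintype.card_fin, hpi]
  have hp : Real.pi ^ ((r : ℝ) / 2) ≠ 0 := (Real.rpow_pos_of_pos Real.pi_pos _).ne'
  rw [h1, cls_eq_zero (Finset.prod_ne_zero_iff.2 hne), h2]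
  constructor
  · rintro ⟨α, hα, h⟩
    rw [h, mul_div_assoc, div_self hp, mul_one]
    exact hα
  · intro h
    exact ⟨_, h, by rw [div_mul_cancel₀ _ hp]⟩

lemma isAlgebraic_rat (q : ℚ) : IsAlgebraic ℚ (q : ℝ) := isAlgebraic_algebraMap (R := ℚ) (A := ℝ) q

lemma gc_add_one {x : ℚ} (hx : ∀ z : ℤ, x ≠ z) : gc ((x + 1 : ℚ) : ℝ) = gc (x : ℝ) := by
  have hx0 : (x : ℝ) ≠ 0 := by
    intro h
    apply hx 0
    push_cast
    exact_mod_cast h
  have hadm : Adm x := fun n h => hx (-(n : ℤ)) (by push_cast; exact h)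
  unfold gc
  have h1 : Real.Gamma ((x + 1 : ℚ) : ℝ) / Real.sqrt Real.pi =
      (x : ℝ) * (Real.Gamma (x : ℝ) / Real.sqrt Real.pi) := by
    push_cast
    rw [Real.Gamma_add_one hx0]
    ring
  rw [h1, cls_mul hx0 (div_ne_zero (gamma_ne hadm) sqrt_pi_ne),
    (cls_eq_zero hx0).2 (isAlgebraic_rat x), zero_add]

lemma gc_add_int {x : ℚ} (hx : ∀ z : ℤ, x ≠ z) (k : ℤ) : gc ((x + k : ℚ) : ℝ) = gc (x : ℝ) := by
  have hsh : ∀ k : ℤ, ∀ z : ℤ, x + k ≠ z := by
    intro k z h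
    apply hx (z - k)
    push_cast
    linarith
  induction k using Int.induction_on with
  | zero => simp
  | succ n ih =>
    rw [← ih]
    have h1 : x + ((n : ℤ) + 1 : ℤ) = (x + (n : ℤ)) + 1 := by push_cast; ring
    rw [h1]
    exact gc_add_one (hsh n)
  | pred n ih =>
    rw [← ih]
    have h1 : x + (-(n : ℤ) : ℤ) = (x + ((-(n : ℤ) - 1 : ℤ))) + 1 := by push_cast; ring
    rw [h1]
    exact (gc_add_one (hsh _)).symm

lemma gc_nat {n : ℕ} (hn : 0 < n) : gc (((n : ℚ)) : ℝ) = gc ((1 : ℚ) : ℝ) := by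
  obtain ⟨m, rfl⟩ : ∃ m, n = m + 1 := ⟨n - 1, by omega⟩
  have hf : ((m.factorial : ℚ) : ℝ) ≠ 0 := by
    push_cast
    exact_mod_cast m.factorial_ne_zero
  unfold gc
  have h1 : Real.Gamma (((m + 1 : ℕ) : ℚ) : ℝ) / Real.sqrt Real.pi =
      ((m.factorial : ℚ) : ℝ) * (Real.Gamma ((1 : ℚ) : ℝ) / Real.sqrt Real.pi) := by
    push_cast
    rw [Real.Gamma_nat_eq_factorial, Real.Gamma_one]
    ring
  have h2 : Real.Gamma ((1 : ℚ) : ℝ) ≠ 0 := by
    push_cast
    rw [Real.Gamma_one]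
    exact one_ne_zero
  rw [h1, cls_mul hf (div_ne_zero h2 sqrt_pi_ne), (cls_eq_zero hf).2 (isAlgebraic_rat _), zero_add]

/-- The reflection formula. -/
lemma gc_reflect {x : ℚ} (h0 : 0 < x) (h1 : x < 1) :
    gc ((1 - x : ℚ) : ℝ) = - gc (x : ℝ) := by
  have h0' : (0 : ℝ) < x := by exact_mod_cast h0
  have h1' : (x : ℝ) < 1 := by exact_mod_cast h1
  have hsin : 0 < Real.sin (Real.pi * x) :=
    Real.sin_pos_of_pos_of_lt_pi (mul_pos Real.pi_pos h0') (by
      nlinarith [Real.pi_pos])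
  have hg1 : Real.Gamma (x : ℝ) ≠ 0 := (Real.Gamma_pos_of_pos h0').ne'
  have hg2 : Real.Gamma ((1 - x : ℚ) : ℝ) ≠ 0 := by
    push_cast
    exact (Real.Gamma_pos_of_pos (by linarith)).ne'
  have h2 : gc ((1 - x : ℚ) : ℝ) + gc (x : ℝ) = 0 := by
    unfold gc
    rw [← cls_mul (div_ne_zero hg2 sqrt_pi_ne) (div_ne_zero hg1 sqrt_pi_ne)]
    have h3 : Real.Gamma ((1 - x : ℚ) : ℝ) / Real.sqrt Real.pi *
        (Real.Gamma (x : ℝ) / Real.sqrt Real.pi) = (Real.sin (Real.pi * x))⁻¹ := by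
      rw [div_mul_div_comm, Real.mul_self_sqrt Real.pi_pos.le]
      push_cast
      rw [mul_comm (Real.Gamma (1 - (x : ℝ))), Real.Gamma_mul_Gamma_one_sub]
      have := Real.pi_pos
      field_simp
    rw [h3, cls_eq_zero (inv_ne_zero hsin.ne')]
    have h4 := Real.isAlgebraic_sin_rat_mul_pi x
    have h5 : IsAlgebraic ℚ (Real.sin ((x : ℝ) * Real.pi)) :=
      h4.extendScalars (algebraMap ℤ ℚ).injective_int
    rw [mul_comm] at h5
    exact h5.inv
  exact eq_neg_of_add_eq_zero_left h2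

/-- the fractional parts -/
noncomputable def FF (D : ℕ) (x : ℚ) : ℕ → ℚ := fun m =>
  if 1 ≤ m ∧ m < D ∧ m.Coprime D then Int.fract ((m : ℚ) * x) - 1 / 2 else 0

/-- the identity of the question -/
def Ident (D : ℕ) {r : ℕ} (a : Fin r → ℚ) : Prop :=
  ∀ m : ℕ, 1 ≤ m → m < D → m.Coprime D → ∑ i, Int.fract ((m : ℚ) * a i) = (r : ℚ) / 2

lemma ident_iff (D : ℕ) {r : ℕ} (a : Fin r → ℚ) : Ident D a ↔ ∑ i, FF D (a i) = 0 := by
  constructor
  · intro h
    funext m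
    rw [Finset.sum_apply]
    unfold FF
    by_cases hm : 1 ≤ m ∧ m < D ∧ m.Coprime D
    · simp only [if_pos hm]
      rw [Finset.sum_sub_distrib, h m hm.1 hm.2.1 hm.2.2, Finset.sum_const, Finset.card_univ,
        Fintype.card_fin]
      simp only [nsmul_eq_mul, Pi.zero_apply]
      ring
    · simp only [if_neg hm, Finset.sum_const_zero, Pi.zero_apply]
  · intro h m h1 h2 h3
    have h4 := congrFun h m
    rw [Finset.sum_apply] at h4
    unfold FF at h4
    have hm : 1 ≤ m ∧ m < D ∧ m.Coprime D := ⟨h1, h2, h3⟩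
    simp only [if_pos hm] at h4
    rw [Finset.sum_sub_distrib, Finset.sum_const, Finset.card_univ, Fintype.card_fin] at h4
    simp only [nsmul_eq_mul, Pi.zero_apply] at h4
    linarith

lemma FF_add_int (D : ℕ) (x : ℚ) (k : ℤ) : FF D (x + k) = FF D x := by
  funext m
  unfold FF
  have h1 : (m : ℚ) * (x + k) = (m : ℚ) * x + ((m * k : ℤ) : ℚ) := by push_cast; ring
  rw [h1, Int.fract_add_intCast]

lemma FF_reflect {D : ℕ} {x : ℚ} (hx : ∀ m : ℕ, 1 ≤ m ∧ m < D ∧ m.Coprime D → ∀ z : ℤ,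
    (m : ℚ) * x ≠ z) : FF D (1 - x) = - FF D x := by
  funext m
  rw [Pi.neg_apply]
  unfold FF
  by_cases hm : 1 ≤ m ∧ m < D ∧ m.Coprime D
  · rw [if_pos hm, if_pos hm]
    have h1 : (m : ℚ) * (1 - x) = -((m : ℚ) * x) + ((m : ℤ) : ℚ) := by push_cast; ring
    have h2 : Int.fract ((m : ℚ) * x) ≠ 0 := by
      intro h
      rw [Int.fract_eq_iff] at h
      obtain ⟨-, -, z, hz⟩ := h
      exact hx m hm z (by linarith)
    rw [h1, Int.fract_add_intCast, Int.fract_neg h2]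
    ring
  · rw [if_neg hm, if_neg hm, neg_zero]

end Pool.Agent.Q271.RG
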