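import Pool.Agent.Q271.RG.Walk

/-!
# The zero-one law for words
-/

open scoped Classical
open Finset

set_option linter.unusedSectionVars false
set_option linter.unusedVariables false

namespace Pool.Agent.Q271.RG

section gen

variable {S V : Type} [Fintype S] [AddCommGroup V] {φ : S → V} {neg : S → S}
  (hn : ∀ s, neg (neg s) = s) (hφ : ∀ s, φ (neg s) = -φ s)

lemma cnt_eq_card (φ : S → V) (ι : Type) [Fintype ι] (v : V) :
    cnt φ ι v = Nat.card {t : ι → S // ∑ i, φ (t i) = v} := by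
  unfold cnt
  exact (Nat.subtype_card _ (fun t => by simp)).symm

lemma N_eq_card (φ : S → V) (n : ℕ) (v : V) :
    N φ n v = Nat.card {t : Fin n → S // ∑ i, φ (t i) = v} := cnt_eq_card φ (Fin n) v

include hn hφ in
/-- Longer words. -/
lemma N_add_le (n l : ℕ) : (N φ (2 * n + l) (0 : V) : ℝ) ≤
    (Fintype.card S : ℝ) ^ l * N φ (2 * n) (0 : V) := by
  have h0 := cnt_sub hn hφ (Fin n ⊕ Fin n) (Fin l) 0 0
  rw [sub_zero, cnt_card (n := 2 * n + l) (by simp; ring)] at h0
  rw [← h0, Finset.sum_comm]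
  have h1 : ∀ t : Fin l → S, ∑ x : Fin n ⊕ Fin n → S,
      (if ∑ i, φ (x i) + 0 = ∑ i, φ (t i) + 0 then (1 : ℝ) else 0) ≤ N φ (2 * n) (0 : V) := by
    intro t
    have h2 := cnt_le hn hφ (Fin n) (∑ i, φ (t i))
    rw [cnt_card (n := 2 * n) (v := (0 : V)) (by simp; ring)] at h2
    have h3 : (cnt φ (Fin n ⊕ Fin n) (∑ i, φ (t i)) : ℝ) ≤ N φ (2 * n) (0 : V) := by
      exact_mod_cast h2
    refine le_trans (le_of_eq ?_) h3
    rw [cnt_eq_sum]
    simp only [add_zero]
    exact Finset.sum_congr (by ext; simp) (fun _ _ => rfl)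
  have h5 : ∀ t : Fin l → S, (∑ x : Fin n ⊕ Fin n → S,
      (if ∑ i, φ (x i) + 0 = ∑ i, φ (t i) + 0 then (1 : ℝ) else 0)) ≤ (N φ (2 * n) (0 : V) : ℝ) := h1
  refine (Finset.sum_le_card_nsmul _ _ (N φ (2 * n) (0 : V) : ℝ) fun t _ => ?_).trans_eq ?_
  · refine le_trans (le_of_eq ?_) (h5 t)
    exact Finset.sum_congr (by ext; simp) (fun _ _ => rfl)
  · rw [card_univ_fun, nsmul_eq_mul]
    push_cast
    rfl

end gen

section law

variable {S W : Type} [Fintype S] [AddCommGroup W] (φ : S → (ℕ → ℚ) × W) (e : (ℕ → ℚ) × W)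

/-- the letters: the elements of `S` and one more -/
def phi' : Option S → (ℕ → ℚ) × W
  | some s => φ s
  | none => e

lemma phi'_some (s : S) : phi' φ e (some s) = φ s := rfl

lemma phi'_none : phi' φ e none = e := rfl

/-- the number of words with second component zero -/
noncomputable def AA (r : ℕ) : ℕ := Nat.card {t : Fin r → Option S // (∑ i, phi' φ e (t i)).2 = 0}

/-- the number of words with sum zero -/
noncomputable def II (r : ℕ) : ℕ :=
  Nat.card {t : Fin r → Option S // (∑ i, phi' φ e (t i)).1 = 0 ∧ (∑ i, phi' φ e (t i)).2 = 0}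

lemma II_le (r : ℕ) : II φ e r ≤ AA φ e r := by
  unfold II AA
  refine Nat.card_le_card_of_injective (fun t => (⟨t.1, t.2.2⟩ :
    {t : Fin r → Option S // (∑ i, phi' φ e (t i)).2 = 0})) ?_
  intro t t' h
  have h2 := congrArg Subtype.val h
  exact Subtype.ext h2

/-- Words without the extra letter. -/
lemma AA_ge (r : ℕ) (T : Finset ((ℕ → ℚ) × W)) (hT : ∀ v ∈ T, v.2 = 0) :
    ∑ v ∈ T, N φ r v ≤ AA φ e r := by
  have h1 : ∑ v ∈ T, N φ r v = Nat.card (Σ v : T, {t : Fin r → S // ∑ i, φ (t i) = v.1}) := by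
    rw [Nat.card_sigma, ← Finset.sum_coe_sort]
    exact Finset.sum_congr rfl fun v _ => N_eq_card φ r v.1
  rw [h1]
  unfold AA
  refine Nat.card_le_card_of_injective (fun x => (⟨fun i => some (x.2.1 i), ?_⟩ :
    {t : Fin r → Option S // (∑ i, phi' φ e (t i)).2 = 0})) ?_
  · have h2 : ∑ i, phi' φ e (some (x.2.1 i)) = x.1.1 := x.2.2
    rw [h2]
    exact hT _ x.1.2
  · rintro ⟨v, t, ht⟩ ⟨v', t', ht'⟩ h
    have h2 := congrArg Subtype.val h
    have h3 : t = t' := by
      funext i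
      exact Option.some_injective _ (congrFun h2 i)
    subst h3
    have h4 : v = v' := Subtype.ext (ht.symm.trans ht')
    subst h4
    rfl

variable {φ e}

lemma II_eq (hstar : ∀ (r : ℕ) (t : Fin r → Option S), (∑ i, phi' φ e (t i)).1 = 0 →
    ∀ i, t i ≠ none) (r : ℕ) : II φ e r = N φ r 0 := by
  rw [N_eq_card]
  unfold II
  symm
  refine Nat.card_congr (Equiv.ofBijective (fun t => ⟨fun i => some (t.1 i), ?_⟩) ⟨?_, ?_⟩)
  · have h2 : ∑ i, phi' φ e (some (t.1 i)) = 0 := t.2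
    rw [h2]
    exact ⟨rfl, rfl⟩
  · intro t t' h
    have h2 := congrArg Subtype.val h
    apply Subtype.ext
    funext i
    exact Option.some_injective _ (congrFun h2 i)
  · rintro ⟨t, ht⟩
    have h1 := hstar r t ht.1
    have h2 : ∀ i, ∃ s, t i = some s := fun i => Option.ne_none_iff_exists'.1 (h1 i)
    choose s hs using h2
    have h3 : t = fun i => some (s i) := funext hs
    subst h3
    exact ⟨⟨s, Prod.ext ht.1 ht.2⟩, rfl⟩

/-- Appending a word with sum zero. -/
lemma AA_mono {l : ℕ} (b : Fin l → S) (hb : ∑ i, φ (b i) = 0) (m : ℕ) :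
    AA φ e m ≤ AA φ e (m + l) := by
  unfold AA
  refine Nat.card_le_card_of_injective (fun t => (⟨Fin.append t.1 (fun i => some (b i)), ?_⟩ :
    {t : Fin (m + l) → Option S // (∑ i, phi' φ e (t i)).2 = 0})) ?_
  · rw [Fin.sum_univ_add]
    simp only [Fin.append_left, Fin.append_right, phi'_some]
    rw [hb, add_zero]
    exact t.2
  · intro t t' h
    apply Subtype.ext
    funext i
    have := congrFun (congrArg Subtype.val h) (Fin.castAdd l i)
    simpa using this

/-- Words with the extra letter. -/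
lemma AA_star {m l : ℕ} {v : (ℕ → ℚ) × W} (hv : (v + (l + 1) • e).2 = 0) :
    (m + 1) * N φ m v ≤ AA φ e (m + (l + 1)) := by
  let z : Fin (m + (l + 1)) := ⟨m, by omega⟩
  let P : Fin (m + 1) → Fin (m + (l + 1)) := fun p => ⟨p, by omega⟩
  let T : (Fin m → S) → Fin (m + (l + 1)) → Option S := fun c =>
    Fin.append (fun i => some (c i)) (fun _ => none)
  have hTz : ∀ c, T c z = none := by
    intro c
    have : z = Fin.natAdd m (0 : Fin (l + 1)) := by
      apply Fin.ext; simp [z]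
    simp only [T]
    rw [this, Fin.append_right]
  have hTlt : ∀ c (i : Fin (m + (l + 1))), (i : ℕ) < m → T c i ≠ none := by
    intro c i hi
    have : i = Fin.castAdd (l + 1) ⟨i, hi⟩ := by apply Fin.ext; simp
    simp only [T]
    rw [this, Fin.append_left]
    simp
  have hinj : ∀ p p' c c', (T c ∘ Equiv.swap z (P p)) = (T c' ∘ Equiv.swap z (P p')) →
      p = p' ∧ c = c' := by
    intro p p' c c' h
    have hpp : p = p' := by
      by_contra hne
      have h1 := congrFun h (P p)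
      simp only [Function.comp] at h1
      rw [Equiv.swap_apply_right, hTz] at h1
      have hPne : P p ≠ P p' := by
        intro h2
        apply hne
        apply Fin.ext
        exact congrArg (fun x : Fin (m + (l + 1)) => (x : ℕ)) h2
      by_cases hz : P p = z
      · rw [hz, Equiv.swap_apply_left] at h1
        refine hTlt c' (P p') ?_ h1.symm
        have h3 : (p' : ℕ) ≠ m := by
          intro h4
          apply hPne
          rw [hz]
          apply Fin.ext
          exact h4.symm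
        have := p'.2
        show (p' : ℕ) < m
        omega
      · rw [Equiv.swap_apply_of_ne_of_ne hz hPne] at h1
        refine hTlt c' (P p) ?_ h1.symm
        have h3 : (p : ℕ) ≠ m := by
          intro h4
          apply hz
          apply Fin.ext
          exact h4
        have := p.2
        show (p : ℕ) < m
        omega
    subst hpp
    refine ⟨rfl, ?_⟩
    have h1 : T c = T c' := by
      funext i
      have := congrFun h (Equiv.swap z (P p) i)
      simpa using this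
    funext i
    have h2 := congrFun h1 (Fin.castAdd (l + 1) i)
    simp only [T, Fin.append_left] at h2
    exact Option.some_injective _ h2
  rw [N_eq_card]
  unfold AA
  have h1 : (m + 1) * Nat.card {t : Fin m → S // ∑ i, φ (t i) = v} =
      Nat.card (Fin (m + 1) × {t : Fin m → S // ∑ i, φ (t i) = v}) := by
    rw [Nat.card_prod, Nat.card_fin]
  rw [h1]
  refine Nat.card_le_card_of_injective (fun x => (⟨T x.2.1 ∘ Equiv.swap z (P x.1), ?_⟩ :
    {t : Fin (m + (l + 1)) → Option S // (∑ i, phi' φ e (t i)).2 = 0})) ?_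
  · simp only [Function.comp]
    rw [Equiv.sum_comp (Equiv.swap z (P x.1)) (fun i => phi' φ e (T x.2.1 i)), Fin.sum_univ_add]
    simp only [T, Fin.append_left, Fin.append_right, phi'_some, phi'_none]
    rw [x.2.2, Finset.sum_const, Finset.card_univ, Fintype.card_fin]
    exact hv
  · rintro ⟨p, c⟩ ⟨p', c'⟩ h
    obtain ⟨h2, h3⟩ := hinj p p' c.1 c'.1 (congrArg Subtype.val h)
    rw [h2, Subtype.ext h3]


variable {neg : S → S} (hn : ∀ s, neg (neg s) = s) (hφ : ∀ s, φ (neg s) = -φ s) [Nonempty S]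

include hn hφ in
/-- Many words with second component zero: no extra letter is needed. -/
lemma caseA {J : Type} [Fintype J] (b : J → S)
    (h2 : (∑ j, (φ (b j) + φ (b j))).2 = 0) (h1 : (∑ j, (φ (b j) + φ (b j))).1 ≠ 0) :
    ∃ C : ℝ, 0 ≤ C ∧ ∀ n : ℕ, 0 < n →
      (N φ (2 * n) 0 : ℝ) ≤ C * Real.sqrt (Real.log (n + 1) / n) * AA φ e (2 * n) := by
  set v := ∑ j, (φ (b j) + φ (b j)) with hv
  have hJ : 0 < Fintype.card J := by
    rw [Fintype.card_pos_iff]
    by_contra h
    rw [not_nonempty_iff] at h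
    apply h1
    rw [hv, Finset.univ_eq_empty, Finset.sum_empty]
    rfl
  have hS : (0 : ℝ) < Fintype.card S := card_pos'
  have hJ' : (0 : ℝ) < Fintype.card J := by exact_mod_cast hJ
  set M : ℝ := (Fintype.card J : ℝ) ^ 2 * Fintype.card S ^ 3 with hM
  have hM0 : 0 < M := by positivity
  refine ⟨2 * Real.sqrt (2 * M), by positivity, fun n hn0 => ?_⟩
  have hn' : (0 : ℝ) < n := by exact_mod_cast hn0
  have hlog : 0 < Real.log ((n : ℝ) + 1) := Real.log_pos (by linarith)
  set x : ℝ := Real.sqrt (n / (2 * M * Real.log (n + 1))) with hx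
  have hx2 : x ^ 2 = n / (2 * M * Real.log (n + 1)) := Real.sq_sqrt (by positivity)
  have hx0 : 0 ≤ x := Real.sqrt_nonneg _
  set K := ⌊x⌋₊ with hK
  have hhalf : ∀ k ∈ Finset.range (K + 1), (N φ (2 * n) 0 : ℝ) / 2 ≤ N φ (2 * n) (k • v) := by
    intro k hk
    have hkx : (k : ℝ) ≤ x := by
      have h3 : k ≤ K := Nat.lt_succ_iff.1 (Finset.mem_range.1 hk)
      calc (k : ℝ) ≤ K := by exact_mod_cast h3
        _ ≤ x := Nat.floor_le hx0
    have h3 := walk_main hn hφ hn0 b k
    have h4 : (k * Fintype.card J : ℝ) ^ 2 * (Fintype.card S ^ 3 * Real.log (n + 1) / n) ≤ 1 / 2 := by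
      have h5 : (k : ℝ) ^ 2 ≤ n / (2 * M * Real.log (n + 1)) := by
        rw [← hx2]; exact pow_le_pow_left₀ (Nat.cast_nonneg _) hkx 2
      calc (k * Fintype.card J : ℝ) ^ 2 * (Fintype.card S ^ 3 * Real.log (n + 1) / n)
          = (k : ℝ) ^ 2 * (M * Real.log (n + 1) / n) := by rw [hM]; ring
        _ ≤ n / (2 * M * Real.log (n + 1)) * (M * Real.log (n + 1) / n) :=
            mul_le_mul_of_nonneg_right h5 (by positivity)
        _ = 1 / 2 := by field_simp
    have h6 : (k * Fintype.card J : ℝ) ^ 2 * (Fintype.card S ^ 3 * Real.log (n + 1) / n) *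
        N φ (2 * n) (0 : (ℕ → ℚ) × W) ≤ 1 / 2 * N φ (2 * n) (0 : (ℕ → ℚ) × W) :=
      mul_le_mul_of_nonneg_right h4 (Nat.cast_nonneg _)
    linarith
  have hinj : Set.InjOn (fun k : ℕ => k • v) (Finset.range (K + 1)) := by
    intro k _ k' _ h
    have h3 : k • v.1 = k' • v.1 := congrArg Prod.fst h
    obtain ⟨y, hy⟩ := Function.ne_iff.1 h1
    have h4 : (k : ℚ) * v.1 y = k' * v.1 y := by
      have := congrFun h3 y
      simpa [nsmul_eq_mul] using this
    have h5 : (k : ℚ) = k' := mul_right_cancel₀ hy h4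
    exact_mod_cast h5
  have h3 := AA_ge φ e (2 * n) ((Finset.range (K + 1)).image fun k : ℕ => k • v) (by
    intro w hw
    obtain ⟨k, -, rfl⟩ := mem_image.1 hw
    rw [Prod.smul_snd, h2, smul_zero])
  rw [Finset.sum_image hinj] at h3
  have h4 : ((K : ℝ) + 1) * ((N φ (2 * n) 0 : ℝ) / 2) ≤ AA φ e (2 * n) := by
    have h5 : (∑ k ∈ Finset.range (K + 1), N φ (2 * n) (k • v) : ℝ) ≤ AA φ e (2 * n) := by
      exact_mod_cast h3
    refine le_trans ?_ h5
    have h6 := Finset.card_nsmul_le_sum (Finset.range (K + 1))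
      (fun k => (N φ (2 * n) (k • v) : ℝ)) _ hhalf
    rw [Finset.card_range, nsmul_eq_mul] at h6
    push_cast at h6
    exact h6
  have h5 : x ≤ (K : ℝ) + 1 := (Nat.lt_floor_add_one x).le
  have h6 : x * ((N φ (2 * n) 0 : ℝ) / 2) ≤ AA φ e (2 * n) :=
    (mul_le_mul_of_nonneg_right h5 (by positivity)).trans h4
  have h7 : Real.sqrt (2 * M) * Real.sqrt (Real.log (n + 1) / n) * x = 1 := by
    rw [hx, ← Real.sqrt_mul (by positivity), ← Real.sqrt_mul (by positivity)]
    have : 2 * M * (Real.log (n + 1) / n) * (n / (2 * M * Real.log (n + 1))) = 1 := by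
      field_simp
    rw [this, Real.sqrt_one]
  calc (N φ (2 * n) 0 : ℝ) = 2 * (Real.sqrt (2 * M) * Real.sqrt (Real.log (n + 1) / n) * x) *
        ((N φ (2 * n) 0 : ℝ) / 2) := by rw [h7]; ring
    _ = 2 * Real.sqrt (2 * M) * Real.sqrt (Real.log (n + 1) / n) *
        (x * ((N φ (2 * n) 0 : ℝ) / 2)) := by ring
    _ ≤ 2 * Real.sqrt (2 * M) * Real.sqrt (Real.log (n + 1) / n) * AA φ e (2 * n) :=
        mul_le_mul_of_nonneg_left h6 (by positivity)

include hn hφ in
/-- Many words with second component zero: the extra letter is needed. -/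
lemma caseB {J : Type} [Fintype J] (b : J → S) {k₀ : ℕ} (hk₀ : 0 < k₀)
    (h2 : (∑ j, (φ (b j) + φ (b j)) + (2 * k₀) • e).2 = 0) :
    ∃ (C : ℝ) (n₁ : ℕ), 0 ≤ C ∧ 0 < n₁ ∧ ∀ n : ℕ, n₁ ≤ n →
      (N φ (2 * n) 0 : ℝ) ≤ C * Real.sqrt (Real.log (n + 1) / n) * AA φ e (2 * n) := by
  set v := ∑ j, (φ (b j) + φ (b j)) with hv
  have hS : (0 : ℝ) < Fintype.card S := card_pos'
  set M : ℝ := (Fintype.card J : ℝ) ^ 2 * Fintype.card S ^ 3 with hM
  have hM0 : 0 ≤ M := by positivity
  -- `log (n + 1) / n` tends to zero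
  have hlim : Filter.Tendsto (fun n : ℕ => M * (Real.log (n + 1) / n)) Filter.atTop (nhds (M * 0)) := by
    apply Filter.Tendsto.const_mul
    have h3 : Filter.Tendsto (fun x : ℝ => Real.log (x + 1) / x) Filter.atTop (nhds 0) := by
      have h4 : (fun x : ℝ => Real.log (x + 1)) =o[Filter.atTop] (fun x : ℝ => x) := by
        have h5 := Real.isLittleO_log_id_atTop.comp_tendsto
          (Filter.tendsto_atTop_add_const_right Filter.atTop (1 : ℝ) Filter.tendsto_id)
        refine h5.trans_isBigO ?_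
        refine Asymptotics.IsBigO.of_bound 2 ?_
        filter_upwards [Filter.eventually_ge_atTop (1 : ℝ)] with x hx
        simp only [Function.comp, id, Real.norm_eq_abs]
        rw [abs_of_nonneg (by linarith), abs_of_nonneg (by linarith)]
        linarith
      exact h4.tendsto_div_nhds_zero
    exact h3.comp tendsto_natCast_atTop_atTop
  rw [mul_zero] at hlim
  have hev := hlim.eventually (gt_mem_nhds (show (0 : ℝ) < 1 / 2 by norm_num))
  rw [Filter.eventually_atTop] at hev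
  obtain ⟨n₀, hn₀⟩ := hev
  obtain ⟨l, hl⟩ : ∃ l, 2 * k₀ = l + 1 := ⟨2 * k₀ - 1, by omega⟩
  refine ⟨(Fintype.card S : ℝ) ^ (2 * k₀) * (2 / Real.sqrt (Real.log 2)), n₀ + 3 * k₀ + 1,
    by positivity, by omega, fun n hn1 => ?_⟩
  obtain ⟨m, rfl⟩ : ∃ m, n = m + k₀ := ⟨n - k₀, by omega⟩
  have hm0 : 0 < m := by omega
  have hm' : (0 : ℝ) < m := by exact_mod_cast hm0
  have h3 := walk_main hn hφ hm0 b 1
  rw [one_nsmul, ← hv] at h3
  have h4 : ((1 : ℕ) * Fintype.card J : ℝ) ^ 2 * (Fintype.card S ^ 3 * Real.log (m + 1) / m) ≤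
      1 / 2 := by
    have h5 := hn₀ m (by omega)
    have h6 : ((1 : ℕ) * Fintype.card J : ℝ) ^ 2 * (Fintype.card S ^ 3 * Real.log (m + 1) / m) =
        M * (Real.log (m + 1) / m) := by
      rw [hM]; push_cast; ring
    rw [h6]
    exact h5.le
  have h7 : (N φ (2 * m) 0 : ℝ) / 2 ≤ N φ (2 * m) v := by
    have h8 := mul_le_mul_of_nonneg_right h4
      (Nat.cast_nonneg (α := ℝ) (N φ (2 * m) (0 : (ℕ → ℚ) × W)))
    linarith
  have h8 := AA_star (φ := φ) (e := e) (m := 2 * m) (l := l) (v := v) (by rw [← hl]; exact h2)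
  have h9 : ((2 * m + 1 : ℕ) : ℝ) * N φ (2 * m) v ≤ AA φ e (2 * m + (l + 1)) := by exact_mod_cast h8
  rw [← hl, show 2 * m + 2 * k₀ = 2 * (m + k₀) by ring] at h9
  have h10 := N_add_le hn hφ (V := (ℕ → ℚ) × W) m (2 * k₀)
  rw [show 2 * m + 2 * k₀ = 2 * (m + k₀) by ring] at h10
  have hA0 : (0 : ℝ) ≤ AA φ e (2 * (m + k₀)) := Nat.cast_nonneg _
  have h11 : (N φ (2 * m) 0 : ℝ) ≤ 2 / ((2 * m + 1 : ℕ) : ℝ) * AA φ e (2 * (m + k₀)) := by
    rw [div_mul_eq_mul_div, le_div_iff₀ (by positivity)]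
    have : ((2 * m + 1 : ℕ) : ℝ) * ((N φ (2 * m) 0 : ℝ) / 2) ≤ AA φ e (2 * (m + k₀)) :=
      (mul_le_mul_of_nonneg_left h7 (by positivity)).trans h9
    linarith
  -- the rate
  have h12 : (2 : ℝ) / ((2 * m + 1 : ℕ) : ℝ) ≤
      2 / Real.sqrt (Real.log 2) * Real.sqrt (Real.log (((m + k₀ : ℕ) : ℝ) + 1) / ((m + k₀ : ℕ) : ℝ)) := by
    set y : ℝ := ((m + k₀ : ℕ) : ℝ) with hy
    have hy1 : 1 ≤ y := by
      rw [hy]; exact_mod_cast (by omega : 1 ≤ m + k₀)
    have hym : y ≤ ((2 * m + 1 : ℕ) : ℝ) := by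
      rw [hy]; exact_mod_cast (by omega : m + k₀ ≤ 2 * m + 1)
    have hl2 : 0 < Real.log 2 := Real.log_pos (by norm_num)
    have h13 : Real.sqrt (Real.log 2) * (1 / y) ≤ Real.sqrt (Real.log (y + 1) / y) := by
      apply Real.le_sqrt_of_sq_le
      rw [mul_pow, Real.sq_sqrt hl2.le]
      have h14 : Real.log 2 ≤ Real.log (y + 1) := Real.log_le_log (by norm_num) (by linarith)
      have h15 : (1 / y) ^ 2 ≤ 1 / y := by
        have : 1 / y ≤ 1 := by
          rw [div_le_one (by linarith)]; exact hy1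
        have h0 : 0 ≤ 1 / y := by positivity
        nlinarith
      calc Real.log 2 * (1 / y) ^ 2 ≤ Real.log (y + 1) * (1 / y) :=
            mul_le_mul h14 h15 (by positivity) (Real.log_nonneg (by linarith))
        _ = Real.log (y + 1) / y := by ring
    have hs : 0 < Real.sqrt (Real.log 2) := Real.sqrt_pos.2 hl2
    calc (2 : ℝ) / ((2 * m + 1 : ℕ) : ℝ) ≤ 2 / y :=
          div_le_div_of_nonneg_left (by norm_num) (by linarith) hym
      _ = 2 / Real.sqrt (Real.log 2) * (Real.sqrt (Real.log 2) * (1 / y)) := by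
          field_simp
      _ ≤ _ := mul_le_mul_of_nonneg_left h13 (by positivity)
  calc (N φ (2 * (m + k₀)) 0 : ℝ) ≤ (Fintype.card S : ℝ) ^ (2 * k₀) * N φ (2 * m) 0 := h10
    _ ≤ (Fintype.card S : ℝ) ^ (2 * k₀) * (2 / ((2 * m + 1 : ℕ) : ℝ) * AA φ e (2 * (m + k₀))) :=
        mul_le_mul_of_nonneg_left h11 (by positivity)
    _ ≤ (Fintype.card S : ℝ) ^ (2 * k₀) * ((2 / Real.sqrt (Real.log 2) *
        Real.sqrt (Real.log (((m + k₀ : ℕ) : ℝ) + 1) / ((m + k₀ : ℕ) : ℝ))) *
          AA φ e (2 * (m + k₀))) :=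
        mul_le_mul_of_nonneg_left (mul_le_mul_of_nonneg_right h12 hA0) (by positivity)
    _ = _ := by ring


include hn hφ in
lemma even_case {J : Type} [Fintype J] (b : J → S) (k₀ : ℕ)
    (h2 : (∑ j, φ (b j) + k₀ • e).2 = 0) (h1 : (∑ j, φ (b j) + k₀ • e).1 ≠ 0) :
    ∃ (C : ℝ) (n₁ : ℕ), 0 ≤ C ∧ 0 < n₁ ∧ ∀ n : ℕ, n₁ ≤ n →
      (N φ (2 * n) 0 : ℝ) ≤ C * Real.sqrt (Real.log (n + 1) / n) * AA φ e (2 * n) := by
  rcases Nat.eq_zero_or_pos k₀ with hk | hk
  · rw [hk, zero_smul, add_zero] at h1 h2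
    obtain ⟨C, hC, h⟩ := caseA (e := e) hn hφ b
      (by rw [Finset.sum_add_distrib, Prod.snd_add, h2, add_zero])
      (by
        rw [Finset.sum_add_distrib, Prod.fst_add]
        intro h
        apply h1
        have h3 : (2 : ℚ) • (∑ j, φ (b j)).1 = 0 := by rw [two_smul]; exact h
        rcases smul_eq_zero.1 h3 with h4 | h4
        · norm_num at h4
        · exact h4)
    exact ⟨C, 1, hC, one_pos, fun n hn1 => h n hn1⟩
  · refine caseB hn hφ b hk ?_
    have h3 : ∑ j, (φ (b j) + φ (b j)) + (2 * k₀) • e = (∑ j, φ (b j) + k₀ • e) +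
        (∑ j, φ (b j) + k₀ • e) := by
      rw [Finset.sum_add_distrib, two_mul, add_smul]; abel
    rw [h3, Prod.snd_add, h2, add_zero]

include hn hφ in
/-- One parity class. -/
lemma parity_case (hstar : ∀ (r : ℕ) (t : Fin r → Option S), (∑ i, phi' φ e (t i)).1 = 0 →
    ∀ i, t i ≠ none) {C : ℝ} {n₁ : ℕ} (hC : 0 ≤ C) (hn₁ : 0 < n₁)
    (h : ∀ n : ℕ, n₁ ≤ n →
      (N φ (2 * n) 0 : ℝ) ≤ C * Real.sqrt (Real.log (n + 1) / n) * AA φ e (2 * n))
    {l : ℕ} (b : Fin l → S) (hb : ∑ i, φ (b i) = 0) :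
    ∃ C' : ℝ, 0 ≤ C' ∧ ∀ n : ℕ, 2 ≤ 2 * n + l → (II φ e (2 * n + l) : ℝ) ≤
      C' * Real.sqrt (Real.log ((2 * n + l : ℕ) : ℝ) / ((2 * n + l : ℕ) : ℝ)) *
        AA φ e (2 * n + l) := by
  have hS : (0 : ℝ) < Fintype.card S := card_pos'
  have hl2 : 0 < Real.log 2 := Real.log_pos (by norm_num)
  set C1 : ℝ := Real.sqrt ((2 * n₁ + l : ℕ) / Real.log 2) with hC1
  set C2 : ℝ := (Fintype.card S : ℝ) ^ l * (C * Real.sqrt (2 + l)) with hC2
  refine ⟨max C1 C2, le_max_of_le_left (Real.sqrt_nonneg _), fun n hn2 => ?_⟩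
  set r : ℕ := 2 * n + l with hr
  have hr2 : (2 : ℝ) ≤ r := by exact_mod_cast hn2
  have hr0 : (0 : ℝ) < r := by linarith
  have hlr : Real.log 2 ≤ Real.log r := Real.log_le_log (by norm_num) hr2
  have hA0 : (0 : ℝ) ≤ AA φ e r := Nat.cast_nonneg _
  have hs0 : 0 ≤ Real.sqrt (Real.log (r : ℝ) / r) := Real.sqrt_nonneg _
  rcases lt_or_ge n n₁ with hlt | hge
  · -- few values
    have h1 : (II φ e r : ℝ) ≤ AA φ e r := by exact_mod_cast II_le φ e r
    have h2 : 1 ≤ C1 * Real.sqrt (Real.log (r : ℝ) / r) := by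
      rw [hC1, ← Real.sqrt_mul (by positivity)]
      rw [Real.le_sqrt' one_pos, one_pow]
      have h3 : (r : ℝ) ≤ (2 * n₁ + l : ℕ) := by exact_mod_cast (by omega : r ≤ 2 * n₁ + l)
      rw [div_mul_div_comm, le_div_iff₀ (by positivity), one_mul, mul_comm]
      exact mul_le_mul h3 hlr hl2.le (by positivity)
    calc (II φ e r : ℝ) ≤ 1 * AA φ e r := by rw [one_mul]; exact h1
      _ ≤ (C1 * Real.sqrt (Real.log (r : ℝ) / r)) * AA φ e r := mul_le_mul_of_nonneg_right h2 hA0
      _ ≤ (max C1 C2 * Real.sqrt (Real.log (r : ℝ) / r)) * AA φ e r :=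
          mul_le_mul_of_nonneg_right (mul_le_mul_of_nonneg_right (le_max_left _ _) hs0) hA0
  · have hn0 : 0 < n := by omega
    have hn' : (0 : ℝ) < n := by exact_mod_cast hn0
    have h1 := h n hge
    have h2 := N_add_le hn hφ (V := (ℕ → ℚ) × W) n l
    have h3 := AA_mono (φ := φ) (e := e) b hb (2 * n)
    have h3' : (AA φ e (2 * n) : ℝ) ≤ AA φ e r := by exact_mod_cast h3
    have h4 : Real.sqrt (Real.log (n + 1) / n) ≤
        Real.sqrt (2 + l) * Real.sqrt (Real.log (r : ℝ) / r) := by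
      rw [← Real.sqrt_mul (by positivity)]
      apply Real.sqrt_le_sqrt
      rw [div_le_iff₀ hn']
      have h5 : Real.log ((n : ℝ) + 1) ≤ Real.log r := by
        apply Real.log_le_log (by positivity)
        have : n + 1 ≤ r := by omega
        exact_mod_cast this
      have h6 : (r : ℝ) ≤ (2 + l) * n := by
        have : r ≤ (2 + l) * n := by
          rw [hr, add_mul]
          have : l * 1 ≤ l * n := Nat.mul_le_mul_left l hn0
          omega
        exact_mod_cast this
      have h7 : 1 ≤ (2 + l : ℝ) * n / r := by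
        rw [le_div_iff₀ hr0, one_mul]; exact h6
      calc Real.log ((n : ℝ) + 1) ≤ Real.log r * 1 := by rw [mul_one]; exact h5
        _ ≤ Real.log r * ((2 + l : ℝ) * n / r) :=
            mul_le_mul_of_nonneg_left h7 (hl2.le.trans hlr)
        _ = (2 + l : ℝ) * (Real.log r / r) * n := by ring
    rw [II_eq hstar]
    calc (N φ r 0 : ℝ) ≤ (Fintype.card S : ℝ) ^ l * N φ (2 * n) 0 := h2
      _ ≤ (Fintype.card S : ℝ) ^ l * (C * Real.sqrt (Real.log (n + 1) / n) * AA φ e (2 * n)) :=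
          mul_le_mul_of_nonneg_left h1 (by positivity)
      _ ≤ (Fintype.card S : ℝ) ^ l * (C * (Real.sqrt (2 + l) * Real.sqrt (Real.log (r : ℝ) / r)) *
            AA φ e r) := by
          refine mul_le_mul_of_nonneg_left ?_ (by positivity)
          exact mul_le_mul (mul_le_mul_of_nonneg_left h4 hC) h3' (Nat.cast_nonneg _)
            (by positivity)
      _ = C2 * Real.sqrt (Real.log (r : ℝ) / r) * AA φ e r := by rw [hC2]; ring
      _ ≤ (max C1 C2 * Real.sqrt (Real.log (r : ℝ) / r)) * AA φ e r :=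
          mul_le_mul_of_nonneg_right (mul_le_mul_of_nonneg_right (le_max_right _ _) hs0) hA0

include hn hφ in
/-- **The zero-one law for words.** -/
theorem word_law (hstar : ∀ (r : ℕ) (t : Fin r → Option S), (∑ i, phi' φ e (t i)).1 = 0 →
    ∀ i, t i ≠ none) {J : Type} [Fintype J] (b : J → S) (k₀ : ℕ)
    (h2 : (∑ j, φ (b j) + k₀ • e).2 = 0) (h1 : (∑ j, φ (b j) + k₀ • e).1 ≠ 0) :
    ∃ C : ℝ, 0 ≤ C ∧ ∀ r : ℕ, 2 ≤ r →
      (II φ e r : ℝ) ≤ C * Real.sqrt (Real.log r / r) * AA φ e r := by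
  obtain ⟨C, n₁, hC, hn₁, h⟩ := even_case hn hφ b k₀ h2 h1
  obtain ⟨C0, hC0, h0⟩ := parity_case hn hφ hstar hC hn₁ h (l := 0) (fun i => i.elim0) (by simp)
  by_cases hodd : ∃ m : ℕ, ∃ b : Fin (2 * m + 1) → S, ∑ i, φ (b i) = 0
  · set m := Nat.find hodd with hm
    obtain ⟨b₀, hb₀⟩ := Nat.find_spec hodd
    obtain ⟨C3, hC3, h3⟩ := parity_case hn hφ hstar hC hn₁ h b₀ hb₀
    refine ⟨max C0 C3, le_max_of_le_left hC0, fun r hr => ?_⟩
    have hA0 : (0 : ℝ) ≤ AA φ e r := Nat.cast_nonneg _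
    have hs0 : 0 ≤ Real.sqrt (Real.log (r : ℝ) / r) := Real.sqrt_nonneg _
    rcases Nat.even_or_odd' r with ⟨n, hn' | hn'⟩
    · have h4 := h0 n (by omega)
      rw [show 2 * n + 0 = r by omega] at h4
      exact h4.trans (mul_le_mul_of_nonneg_right
        (mul_le_mul_of_nonneg_right (le_max_left _ _) hs0) hA0)
    · rcases lt_or_ge n m with hlt | hge
      · have h4 : II φ e r = 0 := by
          rw [II_eq hstar, N_eq_card]
          by_contra hne
          have h5 : Nonempty {t : Fin r → S // ∑ i, φ (t i) = 0} := by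
            by_contra h6
            rw [not_nonempty_iff] at h6
            exact hne (Nat.card_of_isEmpty)
          obtain ⟨⟨t, ht⟩⟩ := h5
          subst hn'
          exact Nat.find_min hodd hlt ⟨t, ht⟩
        rw [h4]
        push_cast
        positivity
      · have h4 := h3 (n - m) (by omega)
        rw [show 2 * (n - m) + (2 * Nat.find hodd + 1) = r by omega] at h4
        exact h4.trans (mul_le_mul_of_nonneg_right
          (mul_le_mul_of_nonneg_right (le_max_right _ _) hs0) hA0)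
  · refine ⟨C0, hC0, fun r hr => ?_⟩
    rcases Nat.even_or_odd' r with ⟨n, hn' | hn'⟩
    · have h4 := h0 n (by omega)
      rw [show 2 * n + 0 = r by omega] at h4
      exact h4
    · have h4 : II φ e r = 0 := by
        rw [II_eq hstar, N_eq_card]
        by_contra hne
        have h5 : Nonempty {t : Fin r → S // ∑ i, φ (t i) = 0} := by
          by_contra h6
          rw [not_nonempty_iff] at h6
          exact hne (Nat.card_of_isEmpty)
        obtain ⟨⟨t, ht⟩⟩ := h5
        subst hn'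
        exact hodd ⟨n, t, ht⟩
      rw [h4]
      push_cast
      positivity

end law

end Pool.Agent.Q271.RG
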