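import Mathlib

/-!
# Symmetric random walks in abelian groups: counting words
-/

open scoped Classical
open Finset

set_option linter.unusedSectionVars false
set_option linter.unusedVariables false

namespace Pool.Agent.Q271.RG

section walk

variable {S V : Type} [Fintype S] [AddCommGroup V]

/-- The number of words with sum `v`. -/
noncomputable def cnt (φ : S → V) (ι : Type) [Fintype ι] (v : V) : ℕ :=
  #{t : ι → S | ∑ i, φ (t i) = v}

lemma cnt_congr (φ : S → V) {ι κ : Type} [Fintype ι] [Fintype κ] (e : ι ≃ κ) (v : V) :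
    cnt φ ι v = cnt φ κ v := by
  unfold cnt
  refine Finset.card_bij' (fun t _ => t ∘ e.symm) (fun t _ => t ∘ e) ?_ ?_ ?_ ?_
  · intro t ht
    rw [mem_filter] at ht ⊢
    refine ⟨mem_univ _, ?_⟩
    rw [← ht.2]
    exact Equiv.sum_comp e.symm (fun i => φ (t i))
  · intro t ht
    rw [mem_filter] at ht ⊢
    refine ⟨mem_univ _, ?_⟩
    rw [← ht.2]
    exact Equiv.sum_comp e (fun i => φ (t i))
  · intro t _; funext i; simp
  · intro t _; funext i; simp

lemma cnt_eq_sum (φ : S → V) (ι : Type) [Fintype ι] (v : V) :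
    (cnt φ ι v : ℝ) = ∑ t : ι → S, if ∑ i, φ (t i) = v then (1 : ℝ) else 0 := by
  unfold cnt
  rw [Finset.sum_boole]

lemma cnt_sum (φ : S → V) (ι κ : Type) [Fintype ι] [Fintype κ] (v : V) :
    (cnt φ (ι ⊕ κ) v : ℝ) = ∑ t : ι → S, ∑ t' : κ → S,
      if ∑ i, φ (t i) + ∑ i, φ (t' i) = v then (1 : ℝ) else 0 := by
  rw [cnt_eq_sum]
  refine (Finset.sum_equiv (t := univ) (g := fun p : (ι → S) × (κ → S) =>
      if ∑ i, φ (p.1 i) + ∑ i, φ (p.2 i) = v then (1 : ℝ) else 0)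
    (Equiv.sumArrowEquivProdArrow ι κ S) (fun t => by simp) fun t _ => ?_).trans
    (Fintype.sum_prod_type _)
  rw [Fintype.sum_sum_type]
  rfl

variable {φ : S → V} {neg : S → S} (hn : ∀ s, neg (neg s) = s) (hφ : ∀ s, φ (neg s) = -φ s)

/-- Replace the letters by their inverses. -/
def negW (neg : S → S) (hn : ∀ s, neg (neg s) = s) (ι : Type) : (ι → S) ≃ (ι → S) where
  toFun t i := neg (t i)
  invFun t i := neg (t i)
  left_inv t := funext fun i => hn _
  right_inv t := funext fun i => hn _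

include hn hφ in
lemma cnt_sub (ι κ : Type) [Fintype ι] [Fintype κ] (v w : V) :
    ∑ t : ι → S, ∑ t' : κ → S,
      (if ∑ i, φ (t i) + v = ∑ i, φ (t' i) + w then (1 : ℝ) else 0) = cnt φ (ι ⊕ κ) (w - v) := by
  rw [cnt_sum]
  apply Finset.sum_congr rfl
  intro t _
  symm
  refine Fintype.sum_equiv (negW neg hn κ) _ _ fun t' => ?_
  have h1 : ∑ i, φ ((negW neg hn κ) t' i) = -∑ i, φ (t' i) := by
    rw [← Finset.sum_neg_distrib]
    exact Finset.sum_congr rfl fun i _ => hφ _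
  rw [h1]
  have h2 : (∑ i, φ (t i) + ∑ i, φ (t' i) = w - v) ↔
      (∑ i, φ (t i) + v = -∑ i, φ (t' i) + w) := by
    constructor
    · intro h
      rw [eq_sub_iff_add_eq] at h
      rw [← h]; abel
    · intro h
      rw [eq_sub_iff_add_eq]
      have : ∑ i, φ (t i) + ∑ i, φ (t' i) + v = (∑ i, φ (t i) + v) + ∑ i, φ (t' i) := by abel
      rw [this, h]; abel
  simp only [h2]

/-- the Hilbert space -/
abbrev HH (V : Type) : Type := lp (fun _ : V => ℝ) 2

noncomputable def ee (v : V) : HH V := lp.single 2 v (1 : ℝ)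

lemma inner_ee (v w : V) : inner ℝ (ee v) (ee w) = if v = w then (1 : ℝ) else 0 := by
  unfold ee
  rw [lp.inner_single_left, lp.single_apply]
  by_cases h : v = w
  · subst h; simp
  · simp [h]

noncomputable def vec (φ : S → V) (ι : Type) [Fintype ι] (v : V) : HH V :=
  ∑ t : ι → S, ee (∑ i, φ (t i) + v)

include hn hφ in
lemma inner_vec (ι κ : Type) [Fintype ι] [Fintype κ] (v w : V) :
    inner ℝ (vec φ ι v) (vec φ κ w) = (cnt φ (ι ⊕ κ) (w - v) : ℝ) := by
  rw [← cnt_sub hn hφ]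
  unfold vec
  rw [sum_inner]
  apply Finset.sum_congr rfl
  intro t _
  rw [inner_sum]
  apply Finset.sum_congr rfl
  intro t' _
  rw [inner_ee]

include hn hφ in
lemma norm_sub_vec (ι : Type) [Fintype ι] (v w : V) :
    ‖vec φ ι v - vec φ ι w‖ ^ 2 = 2 * cnt φ (ι ⊕ ι) 0 - 2 * (cnt φ (ι ⊕ ι) (w - v) : ℝ) := by
  rw [norm_sub_sq_real, ← real_inner_self_eq_norm_sq, ← real_inner_self_eq_norm_sq,
    inner_vec hn hφ, inner_vec hn hφ, inner_vec hn hφ, sub_self, sub_self]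
  ring

/-- the distance of the counting function from its translate -/
noncomputable def del (φ : S → V) (ι : Type) [Fintype ι] (v : V) : ℝ :=
  ‖vec φ ι 0 - vec φ ι v‖

include hn hφ in
lemma del_sq (ι : Type) [Fintype ι] (v : V) :
    del φ ι v ^ 2 = 2 * cnt φ (ι ⊕ ι) 0 - 2 * (cnt φ (ι ⊕ ι) v : ℝ) := by
  unfold del
  rw [norm_sub_vec hn hφ, sub_zero]

lemma del_nonneg (ι : Type) [Fintype ι] (v : V) : 0 ≤ del φ ι v := norm_nonneg _

include hn hφ in
lemma cnt_le (ι : Type) [Fintype ι] (v : V) : cnt φ (ι ⊕ ι) v ≤ cnt φ (ι ⊕ ι) 0 := by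
  have h1 := del_sq hn hφ ι v
  have h2 := sq_nonneg (del φ ι v)
  have h3 : (cnt φ (ι ⊕ ι) v : ℝ) ≤ cnt φ (ι ⊕ ι) 0 := by linarith
  exact_mod_cast h3

include hn hφ in
lemma del_add (ι : Type) [Fintype ι] (v w : V) : del φ ι (v + w) ≤ del φ ι v + del φ ι w := by
  have h1 : ‖vec φ ι v - vec φ ι (v + w)‖ = del φ ι w := by
    have h2 := norm_sub_vec hn hφ ι v (v + w)
    have h3 := del_sq hn hφ ι w
    rw [add_sub_cancel_left] at h2
    rw [← h3] at h2
    exact (pow_left_inj₀ (norm_nonneg _) (del_nonneg _ _) two_ne_zero).1 h2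
  rw [← h1]
  unfold del
  exact norm_sub_le_norm_sub_add_norm_sub _ _ _

lemma del_zero (ι : Type) [Fintype ι] : del φ ι 0 = 0 := by
  unfold del
  rw [sub_self, norm_zero]

include hn hφ in
lemma del_sum (ι : Type) [Fintype ι] {J : Type} (s : Finset J) (h : J → V) :
    del φ ι (∑ j ∈ s, h j) ≤ ∑ j ∈ s, del φ ι (h j) :=
  Finset.le_sum_of_subadditive (del φ ι) (del_zero ι).le (fun v w => del_add hn hφ ι v w) s h

include hn hφ in
lemma del_nsmul (ι : Type) [Fintype ι] (k : ℕ) (v : V) : del φ ι (k • v) ≤ k * del φ ι v := by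
  induction k with
  | zero => simp [del_zero]
  | succ k ih =>
    rw [succ_nsmul]
    refine (del_add hn hφ ι _ _).trans ?_
    push_cast
    linarith

include hn hφ in
/-- One more step. -/
lemma step_le (ι : Type) [Fintype ι] (a b : S) :
    (cnt φ (ι ⊕ ι) 0 : ℝ) - cnt φ (ι ⊕ ι) (φ a + φ b) ≤
      (Fintype.card S : ℝ) ^ 2 * cnt φ (ι ⊕ ι) 0 - cnt φ ((ι ⊕ ι) ⊕ Fin 2) 0 := by
  have h1 : (cnt φ ((ι ⊕ ι) ⊕ Fin 2) 0 : ℝ) =
      ∑ t : Fin 2 → S, (cnt φ (ι ⊕ ι) (∑ i, φ (t i)) : ℝ) := by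
    have h0 := cnt_sub hn hφ (ι ⊕ ι) (Fin 2) 0 0
    rw [sub_zero] at h0
    rw [← h0, Finset.sum_comm]
    refine Finset.sum_congr (by ext; simp) ?_
    intro t _
    rw [cnt_eq_sum]
    simp only [add_zero]
  have h2 : (Fintype.card S : ℝ) ^ 2 * cnt φ (ι ⊕ ι) 0 =
      ∑ t : Fin 2 → S, (cnt φ (ι ⊕ ι) 0 : ℝ) := by
    rw [Finset.sum_const, Finset.card_univ, Fintype.card_fun, Fintype.card_fin, nsmul_eq_mul]
    push_cast
    ring
  rw [h1, h2, ← Finset.sum_sub_distrib]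
  have h3 := Finset.single_le_sum (s := (univ : Finset (Fin 2 → S)))
    (f := fun t : Fin 2 → S => (cnt φ (ι ⊕ ι) 0 : ℝ) - cnt φ (ι ⊕ ι) (∑ i, φ (t i)))
    (fun t _ => by
      have := cnt_le hn hφ ι (∑ i, φ (t i))
      have h4 : (cnt φ (ι ⊕ ι) (∑ i, φ (t i)) : ℝ) ≤ cnt φ (ι ⊕ ι) 0 := by exact_mod_cast this
      linarith) (mem_univ ![a, b])
  simpa [Fin.sum_univ_two] using h3

/-- the number of words of length `n` -/
noncomputable def N (φ : S → V) (n : ℕ) (v : V) : ℕ := cnt φ (Fin n) v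

lemma cnt_card {ι : Type} [Fintype ι] {n : ℕ} (h : Fintype.card ι = n) (v : V) :
    cnt φ ι v = N φ n v := by
  subst h
  exact cnt_congr φ (Fintype.equivFin ι) v

include hn hφ in
lemma N_sq_le (n : ℕ) : N φ (2 * n + 2) (0 : V) ^ 2 ≤ N φ (2 * n) 0 * N φ (2 * n + 4) 0 := by
  have h1 := real_inner_mul_inner_self_le (vec φ (Fin n) (0 : V)) (vec φ (Fin (n + 2)) 0)
  rw [inner_vec hn hφ, inner_vec hn hφ, inner_vec hn hφ, sub_zero,
    cnt_card (n := 2 * n + 2) (by simp; ring), cnt_card (n := 2 * n) (by simp; ring),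
    cnt_card (n := 2 * n + 4) (by simp; ring)] at h1
  rw [pow_two]
  exact_mod_cast h1

/-- the values of the words of length `n` -/
noncomputable def vals (φ : S → V) (n : ℕ) : Finset V :=
  univ.image fun t : Fin n → S => ∑ i, φ (t i)

lemma card_vals (n : ℕ) : #(vals φ n) ≤ (n + 1) ^ Fintype.card S := by
  have h1 : vals φ n ⊆ univ.image fun c : S → Fin (n + 1) => ∑ s, (c s : ℕ) • φ s := by
    intro v hv
    obtain ⟨t, -, rfl⟩ := mem_image.1 hv
    rw [mem_image]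
    refine ⟨fun s => ⟨#{i | t i = s}, ?_⟩, mem_univ _, ?_⟩
    · refine Nat.lt_succ_of_le ((Finset.card_filter_le _ _).trans ?_)
      simp
    · symm
      rw [← Finset.sum_fiberwise (s := univ) (g := t)]
      apply Finset.sum_congr rfl
      intro s _
      rw [Finset.sum_congr rfl (g := fun _ => φ s) (fun i hi => by rw [(mem_filter.1 hi).2]),
        Finset.sum_const]
  refine (Finset.card_le_card h1).trans (Finset.card_image_le.trans ?_)
  rw [Finset.card_univ, Fintype.card_fun, Fintype.card_fin]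

lemma card_univ_fun (n : ℕ) (inst : Fintype (Fin n → S)) :
    (@Finset.univ _ inst).card = Fintype.card S ^ n := by
  have h := @Fintype.card_fun (Fin n) S _ _ _
  rw [Fintype.card_fin] at h
  refine Eq.trans ?_ h
  rw [Finset.card_univ]
  exact @Fintype.card_congr _ _ inst Pi.instFintype (Equiv.refl _)

include hn hφ in
lemma lower (n : ℕ) : (Fintype.card S : ℝ) ^ (2 * n) ≤
    N φ (2 * n) (0 : V) * (n + 1 : ℝ) ^ Fintype.card S := by
  have h1 := real_inner_mul_inner_self_le (vec φ (Fin n) (0 : V)) (∑ u ∈ vals φ n, ee u)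
  have h2 : inner ℝ (vec φ (Fin n) (0 : V)) (∑ u ∈ vals φ n, ee u) = (Fintype.card S : ℝ) ^ n := by
    unfold vec
    rw [sum_inner]
    have h3 : ∀ t : Fin n → S,
        inner ℝ (ee (∑ i, φ (t i) + 0)) (∑ u ∈ vals φ n, ee u) = 1 := by
      intro t
      rw [inner_sum]
      simp only [inner_ee, add_zero]
      rw [Finset.sum_ite_eq, if_pos]
      exact mem_image_of_mem _ (mem_univ t)
    refine (Finset.sum_congr rfl (fun t _ => h3 t)).trans ?_
    rw [Finset.sum_const, card_univ_fun, nsmul_eq_mul, mul_one]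
    push_cast
    rfl
  have h3 : inner ℝ (∑ u ∈ vals φ n, ee u) (∑ u ∈ vals φ n, ee u) = (#(vals φ n) : ℝ) := by
    rw [sum_inner]
    have h4 : ∀ v ∈ vals φ n, inner ℝ (ee v) (∑ u ∈ vals φ n, ee u) = 1 := by
      intro v hv
      rw [inner_sum]
      simp only [inner_ee]
      rw [Finset.sum_ite_eq, if_pos hv]
    rw [Finset.sum_congr rfl h4, Finset.sum_const, nsmul_eq_mul, mul_one]
  rw [h2, h3, inner_vec hn hφ, sub_zero, cnt_card (n := 2 * n) (by simp; ring)] at h1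
  have h4 : (#(vals φ n) : ℝ) ≤ (n + 1 : ℝ) ^ Fintype.card S := by
    exact_mod_cast card_vals (φ := φ) n
  calc (Fintype.card S : ℝ) ^ (2 * n) = (Fintype.card S : ℝ) ^ n * (Fintype.card S : ℝ) ^ n := by
        rw [two_mul, pow_add]
    _ ≤ N φ (2 * n) (0 : V) * (#(vals φ n) : ℝ) := h1
    _ ≤ _ := mul_le_mul_of_nonneg_left h4 (Nat.cast_nonneg _)

/-- return probabilities -/
noncomputable def bb (φ : S → V) (n : ℕ) : ℝ := N φ (2 * n) (0 : V) / (Fintype.card S : ℝ) ^ (2 * n)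

variable [Nonempty S]

lemma card_pos' : (0 : ℝ) < Fintype.card S := by
  exact_mod_cast Fintype.card_pos

include hn hφ in
lemma bb_lower (n : ℕ) : ((n + 1 : ℝ) ^ Fintype.card S)⁻¹ ≤ bb φ n := by
  have h1 := lower hn hφ n
  have h2 : (0 : ℝ) < (Fintype.card S : ℝ) ^ (2 * n) := pow_pos card_pos' _
  unfold bb
  rw [le_div_iff₀ h2, inv_mul_le_iff₀ (by positivity)]
  exact h1.trans_eq (mul_comm _ _)

include hn hφ in
lemma bb_pos (n : ℕ) : 0 < bb φ n := lt_of_lt_of_le (by positivity) (bb_lower hn hφ n)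

include hn hφ in
lemma bb_sq (n : ℕ) : bb φ (n + 1) ^ 2 ≤ bb φ n * bb φ (n + 2) := by
  unfold bb
  have h1 := N_sq_le hn hφ n
  have h2 : (N φ (2 * n + 2) (0 : V) : ℝ) ^ 2 ≤ N φ (2 * n) 0 * N φ (2 * n + 4) 0 := by
    exact_mod_cast h1
  have h3 : (0 : ℝ) < (Fintype.card S : ℝ) := card_pos'
  rw [show 2 * (n + 1) = 2 * n + 2 by ring, show 2 * (n + 2) = 2 * n + 4 by ring, div_pow,
    div_mul_div_comm, ← pow_mul, ← pow_add, show (2 * n + 2) * 2 = 2 * n + (2 * n + 4) by ring]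
  exact div_le_div_of_nonneg_right h2 (by positivity)

lemma bb_zero : bb φ 0 = 1 := by
  unfold bb N cnt
  simp

include hn hφ in
lemma ratio_mono (n : ℕ) : bb φ (n + 1) / bb φ n ≤ bb φ (n + 2) / bb φ (n + 1) := by
  rw [div_le_div_iff₀ (bb_pos hn hφ _) (bb_pos hn hφ _)]
  have := bb_sq hn hφ n
  nlinarith

include hn hφ in
lemma bb_le_pow (n : ℕ) : bb φ n ≤ (bb φ (n + 1) / bb φ n) ^ n := by
  induction n with
  | zero => rw [bb_zero, pow_zero]
  | succ n ih =>
    have h1 := ratio_mono hn hφ n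
    have h0 : 0 ≤ bb φ (n + 1) / bb φ n := (div_pos (bb_pos hn hφ _) (bb_pos hn hφ _)).le
    calc bb φ (n + 1) = bb φ n * (bb φ (n + 1) / bb φ n) := by
          rw [mul_div_cancel₀ _ (bb_pos hn hφ n).ne']
      _ ≤ (bb φ (n + 1) / bb φ n) ^ n * (bb φ (n + 1) / bb φ n) := mul_le_mul_of_nonneg_right ih h0
      _ = (bb φ (n + 1) / bb φ n) ^ (n + 1) := (pow_succ _ _).symm
      _ ≤ _ := pow_le_pow_left₀ h0 h1 _

include hn hφ in
lemma ratio_lower {n : ℕ} (hn0 : 0 < n) :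
    1 - bb φ (n + 1) / bb φ n ≤ Fintype.card S * Real.log (n + 1) / n := by
  have h0 : 0 < bb φ (n + 1) / bb φ n := div_pos (bb_pos hn hφ _) (bb_pos hn hφ _)
  have h1 := Real.log_le_sub_one_of_pos (inv_pos.2 h0)
  have h1' : 1 - bb φ (n + 1) / bb φ n ≤ - Real.log (bb φ (n + 1) / bb φ n) := by
    have := Real.log_le_sub_one_of_pos h0
    linarith
  have h2 := Real.log_le_log (bb_pos hn hφ n) (bb_le_pow hn hφ n)
  rw [Real.log_pow] at h2
  have h3 := Real.log_le_log (by positivity) (bb_lower hn hφ n)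
  rw [Real.log_inv, Real.log_pow] at h3
  have hn' : (0 : ℝ) < n := by exact_mod_cast hn0
  refine h1'.trans ?_
  rw [le_div_iff₀ hn']
  linarith

include hn hφ in
/-- **The number of words with a given even sum.** -/
theorem walk_main {n : ℕ} (hn0 : 0 < n) {J : Type} [Fintype J] (b : J → S) (k : ℕ) :
    (N φ (2 * n) (0 : V) : ℝ) - N φ (2 * n) (k • ∑ j, (φ (b j) + φ (b j))) ≤
      (k * Fintype.card J) ^ 2 * (Fintype.card S ^ 3 * Real.log (n + 1) / n) *
        N φ (2 * n) (0 : V) := by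
  have hS : (0 : ℝ) < Fintype.card S := card_pos'
  have hn' : (0 : ℝ) < n := by exact_mod_cast hn0
  have hN : (0 : ℝ) ≤ N φ (2 * n) (0 : V) := Nat.cast_nonneg _
  have hlog : 0 ≤ Real.log ((n : ℝ) + 1) := Real.log_nonneg (by linarith)
  have hc : ∀ v : V, (cnt φ (Fin n ⊕ Fin n) v : ℝ) = N φ (2 * n) v := by
    intro v
    rw [cnt_card (n := 2 * n) (by simp; ring)]
  -- one double step
  have h1 : ∀ a : S, del φ (Fin n) (φ a + φ a) ^ 2 ≤
      2 * (Fintype.card S ^ 3 * Real.log (n + 1) / n) * N φ (2 * n) (0 : V) := by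
    intro a
    have h2 := step_le hn hφ (Fin n) a a
    rw [del_sq hn hφ, hc, hc]
    rw [hc, hc, cnt_card (n := 2 * n + 2) (by simp; ring)] at h2
    have h3 := ratio_lower hn hφ hn0
    have h4 : (N φ (2 * n + 2) (0 : V) : ℝ) = Fintype.card S ^ 2 * N φ (2 * n) (0 : V) *
        (bb φ (n + 1) / bb φ n) := by
      have h5 := bb_pos hn hφ n
      have h6 : (N φ (2 * n) (0 : V) : ℝ) = bb φ n * (Fintype.card S : ℝ) ^ (2 * n) := by
        unfold bb
        rw [div_mul_cancel₀]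
        exact (pow_pos hS _).ne'
      have h7 : (N φ (2 * n + 2) (0 : V) : ℝ) = bb φ (n + 1) * (Fintype.card S : ℝ) ^ (2 * n + 2) := by
        unfold bb
        rw [show 2 * (n + 1) = 2 * n + 2 by ring, div_mul_cancel₀]
        exact (pow_pos hS _).ne'
      rw [h6, h7]
      field_simp
      ring
    have h8 : (Fintype.card S : ℝ) ^ 2 * N φ (2 * n) (0 : V) - N φ (2 * n + 2) (0 : V) ≤
        (Fintype.card S ^ 3 * Real.log (n + 1) / n) * N φ (2 * n) (0 : V) := by
      rw [h4]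
      have h9 : (Fintype.card S : ℝ) ^ 2 * N φ (2 * n) (0 : V) -
          Fintype.card S ^ 2 * N φ (2 * n) (0 : V) * (bb φ (n + 1) / bb φ n) =
          (Fintype.card S ^ 2 * N φ (2 * n) (0 : V)) * (1 - bb φ (n + 1) / bb φ n) := by ring
      rw [h9]
      calc (Fintype.card S : ℝ) ^ 2 * N φ (2 * n) (0 : V) * (1 - bb φ (n + 1) / bb φ n)
          ≤ (Fintype.card S : ℝ) ^ 2 * N φ (2 * n) (0 : V) *
            (Fintype.card S * Real.log (n + 1) / n) := mul_le_mul_of_nonneg_left h3 (by positivity)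
        _ = _ := by ring
    linarith
  set Q : ℝ := 2 * (Fintype.card S ^ 3 * Real.log (n + 1) / n) * N φ (2 * n) (0 : V) with hQ
  have hQ0 : 0 ≤ Q := by
    rw [hQ]; positivity
  have h2 : ∀ a : S, del φ (Fin n) (φ a + φ a) ≤ Real.sqrt Q := by
    intro a
    exact Real.le_sqrt_of_sq_le (h1 a)
  have h3 : del φ (Fin n) (k • ∑ j, (φ (b j) + φ (b j))) ≤ k * (Fintype.card J * Real.sqrt Q) := by
    refine (del_nsmul hn hφ _ _ _).trans ?_
    refine mul_le_mul_of_nonneg_left ?_ (Nat.cast_nonneg _)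
    refine (del_sum hn hφ (Fin n) univ (fun j => φ (b j) + φ (b j))).trans ?_
    refine (Finset.sum_le_card_nsmul _ _ _ fun j _ => h2 (b j)).trans_eq ?_
    rw [Finset.card_univ, nsmul_eq_mul]
  have h4 : del φ (Fin n) (k • ∑ j, (φ (b j) + φ (b j))) ^ 2 ≤
      (k * (Fintype.card J * Real.sqrt Q)) ^ 2 :=
    pow_le_pow_left₀ (del_nonneg _ _) h3 2
  rw [del_sq hn hφ, hc, hc, mul_pow, mul_pow, Real.sq_sqrt hQ0, hQ] at h4
  have h5 : (k * Fintype.card J : ℝ) ^ 2 * (Fintype.card S ^ 3 * Real.log (n + 1) / n) *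
        N φ (2 * n) (0 : V) = (k : ℝ) ^ 2 * ((Fintype.card J : ℝ) ^ 2 *
        (2 * (Fintype.card S ^ 3 * Real.log (n + 1) / n) * N φ (2 * n) (0 : V))) / 2 := by ring
  rw [h5]
  linarith

end walk

end Pool.Agent.Q271.RG
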